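import Pool.Agent.Helper9.RC2.Goals
import Pool.Agent.Helper16.ZR.RoomB
import Pool.Agent.Helper32.RC.CutDown

/-!
# Packet RC2-FULL (MP_b55b7c_an): small full matrices over the fixed point algebra, exact version
-/

open scoped ENNReal NNReal InnerProductSpace ComplexOrder
open Filter Topology

attribute [-instance] CStarMatrix.instAlgebra CStarMatrix.instModule CStarMatrix.instSMul
  CStarMatrix.instMulAction CStarMatrix.instDistribMulAction

set_option linter.unusedSectionVars false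

noncomputable section
universe u

namespace Pool.Agent.Helper14.RC2.FULL

open RC

variable {B : Type u} [CStarAlgebra B] [PartialOrder B] [StarOrderedRing B]
variable {ι κ : Type} [Fintype ι] [DecidableEq ι] [Fintype κ] [DecidableEq κ]

theorem row_dsum (a : CStarMatrix ι ι B) (b : CStarMatrix κ κ B)
    (v : CStarMatrix Unit (ι ⊕ κ) B) :
    v * dsum a b * v.conjTranspose =
      (CStarMatrix.ofMatrix fun i k => v i (Sum.inl k) : CStarMatrix Unit ι B) * a *
        (CStarMatrix.ofMatrix fun i k => v i (Sum.inl k) : CStarMatrix Unit ι B).conjTranspose +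
      (CStarMatrix.ofMatrix fun i k => v i (Sum.inr k) : CStarMatrix Unit κ B) * b *
        (CStarMatrix.ofMatrix fun i k => v i (Sum.inr k) : CStarMatrix Unit κ B).conjTranspose := by
  ext i k
  rw [CStarMatrix.add_apply]
  simp only [CStarMatrix.mul_apply, Fintype.sum_sum_type]
  have h1 : ∀ x y, dsum a b (Sum.inl x) (Sum.inl y) = a x y := fun _ _ => rfl
  have h2 : ∀ x y, dsum a b (Sum.inl x) (Sum.inr y) = 0 := fun _ _ => rfl
  have h3 : ∀ x y, dsum a b (Sum.inr x) (Sum.inl y) = 0 := fun _ _ => rfl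
  have h4 : ∀ x y, dsum a b (Sum.inr x) (Sum.inr y) = b x y := fun _ _ => rfl
  simp only [h1, h2, h3, h4, mul_zero, Finset.sum_const_zero, add_zero, zero_add]
  rfl

/-- `p` copies of `c` along the diagonal. -/
theorem copies (hDs : QDsumP.{u}) {n : ℕ} (c : CStarMatrix (Fin n) (Fin n) B) (hc : 0 ≤ c) (p : ℕ) :
    ∃ (ν : Type) (_ : Fintype ν) (_ : DecidableEq ν) (C : CStarMatrix ν ν B), 0 ≤ C ∧
      (∀ ω : QTrace B, ω.dim C = p * ω.dim c) ∧
      ∀ v : CStarMatrix Unit ν B, ∃ y : Fin p → CStarMatrix Unit (Fin n) B,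
        v * C * v.conjTranspose = ∑ k, y k * c * (y k).conjTranspose := by
  induction p with
  | zero =>
    refine ⟨Fin 0, inferInstance, inferInstance, 0, le_rfl, fun ω => ?_, fun v => ⟨fun _ => 0, ?_⟩⟩
    · rw [CutDown.dim_zero]
      simp
    · rw [Finset.univ_eq_empty, Finset.sum_empty]
      ext i k
      simp [CStarMatrix.mul_apply]
  | succ p ih =>
    obtain ⟨ν, _, _, C, hC, hd, hv⟩ := ih
    refine ⟨ν ⊕ Fin n, inferInstance, inferInstance, dsum C c, ?_, fun ω => ?_, fun v => ?_⟩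
    · exact RC.dsum_nonneg hC hc
    · rw [(hDs B ω ν (Fin n) C c hC hc).2, hd ω]
      push_cast
      ring
    · obtain ⟨y, hy⟩ := hv (CStarMatrix.ofMatrix fun i k => v i (Sum.inl k))
      refine ⟨Fin.snoc (α := fun _ => CStarMatrix Unit (Fin n) B) y
        (CStarMatrix.ofMatrix fun i k => v i (Sum.inr k)), ?_⟩
      rw [row_dsum, hy, Fin.sum_univ_castSucc]
      simp only [Fin.snoc_castSucc, Fin.snoc_last]

/-- Normalising an element near `1`. -/
theorem inv_sqrt {D : Type u} [CStarAlgebra D] [PartialOrder D] [StarOrderedRing D] (w : D)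
    (hw : IsSelfAdjoint w) (h : ‖w - 1‖ < 1 / 2) : ∃ s : D, star s = s ∧ s * w * s = 1 := by
  have h1 : algebraMap ℝ D (1 / 2) ≤ w := by
    have h2 : 1 - w ≤ algebraMap ℝ D ‖1 - w‖ :=
      IsSelfAdjoint.le_algebraMap_norm_self ((IsSelfAdjoint.one D).sub hw)
    have h3 : algebraMap ℝ D ‖1 - w‖ ≤ algebraMap ℝ D (1 / 2) := by
      rw [norm_sub_rev]
      exact algebraMap_mono D h.le
    have h4 : (1 : D) = algebraMap ℝ D (1 / 2) + algebraMap ℝ D (1 / 2) := by
      rw [← map_add]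
      norm_num
    have h5 := h2.trans h3
    rw [sub_le_iff_le_add] at h5
    nth_rewrite 1 [h4] at h5
    exact le_of_add_le_add_left h5
  have h2 : ∀ t ∈ spectrum ℝ w, 1 / 2 ≤ t := (algebraMap_le_iff_le_spectrum hw).1 h1
  set f : ℝ → ℝ := fun t => (Real.sqrt (max t (1 / 2)))⁻¹ with hf
  have hfc : Continuous f := by
    refine Continuous.inv₀ (by fun_prop) fun t => ?_
    have : (0 : ℝ) < max t (1 / 2) := lt_of_lt_of_le (by norm_num) (le_max_right _ _)
    exact (Real.sqrt_pos.2 this).ne'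
  refine ⟨cfc f w, (cfc_predicate f w : IsSelfAdjoint (cfc f w)), ?_⟩
  have h3 : cfc f w * w = cfc (fun t => f t * t) w := by
    have h4 := cfc_mul f (fun t => t) w hfc.continuousOn continuousOn_id
    rw [cfc_id' ℝ w] at h4
    exact h4.symm
  rw [h3, ← cfc_mul (fun t => f t * t) f w (hfc.mul continuous_id).continuousOn hfc.continuousOn]
  rw [← cfc_one ℝ w]
  refine cfc_congr fun t ht => ?_
  have ht2 := h2 t ht
  have h5 : max t (1 / 2) = t := max_eq_left ht2
  simp only [hf, h5]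
  have h6 : (0 : ℝ) < t := by linarith
  have h7 : Real.sqrt t * Real.sqrt t = t := Real.mul_self_sqrt h6.le
  have h8 : Real.sqrt t ≠ 0 := (Real.sqrt_pos.2 h6).ne'
  change (Real.sqrt t)⁻¹ * t * (Real.sqrt t)⁻¹ = 1
  field_simp
  nlinarith

theorem t (hTF : TFP.{u}) (hOne : QOneP.{u}) (hMo : QMonoP.{u}) (hDs : QDsumP.{u}) :
    FullBP.{u} := by
  intro A B _ _ _ _ _ _ G _ _ α j hα hj hS hN hT ρ hρ hcomp θ hθ
  obtain ⟨n, c, L, hc, hL, hω, hσ⟩ := hTF A B G α j hα hj hS hN hT θ hθ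
  -- normalise
  set s : ℝ := ‖c‖ + 1 with hs
  have hs0 : 0 < s := by positivity
  set c' : CStarMatrix (Fin n) (Fin n) B := s⁻¹ • c with hc'
  have hc'0 : 0 ≤ c' := smul_nonneg (inv_nonneg.2 hs0.le) hc
  have hc'1 : c' ≤ 1 := by
    rw [← CStarAlgebra.norm_le_one_iff_of_nonneg c' hc'0, hc', norm_smul, norm_inv,
      Real.norm_of_nonneg hs0.le, inv_mul_le_iff₀ hs0]
    linarith
  have hcc' : c = s • c' := by
    rw [hc', smul_smul, mul_inv_cancel₀ hs0.ne', one_smul]
  have hω' : ∀ ω : QTrace B, 1 ≤ L * ω.dim c' := fun ω => by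
    have h1 : Cu c c' := by
      rw [hcc']
      exact CutDown.cu_smul hs0.le c'
    have h2 := hMo B ω (Fin n) (Fin n) c c' hc hc'0 h1
    exact (hω ω).trans (mul_le_mul_of_nonneg_left h2 hL.le)
  have hmp : ∀ x : CStarMatrix (Fin n) (Fin n) B, 0 ≤ x → 0 ≤ mp j x := fun x hx => by
    obtain ⟨r, hr⟩ := CStarAlgebra.nonneg_iff_eq_mul_star_self.mp hx
    rw [hr, RoomB16.mp_mul, ← cm_star_eq, RoomB16.mp_conj]
    exact cm_mul_conj_nonneg _
  have hσ' : ∀ σ : QTrace A, σ.dim (mp j c') ≤ θ := fun σ => by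
    have h1 : Cu (mp j c') (mp j c) := by
      rw [hc', RoomB16.mp_rsmul]
      exact CutDown.cu_smul (inv_nonneg.2 hs0.le) _
    exact (hMo A σ (Fin n) (Fin n) _ _ (hmp _ hc'0) (hmp _ hc) h1).trans (hσ σ)
  obtain ⟨p, hp⟩ := exists_nat_gt ((1 + ρ) * L)
  obtain ⟨ν, _, _, C, hC, hd, hv⟩ := copies hDs c' hc'0 p
  have hcu : Cu (1 : CStarMatrix Unit Unit B) C := by
    refine hcomp Unit ν 1 C ?_ hC fun ω => ?_
    · have := cm_mul_conj_nonneg (1 : CStarMatrix Unit Unit B)
      rwa [cm_conj_one, cm_one_mul] at this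
    · rw [(hOne B ω Unit).2, hd ω]
      have h1 := hω' ω
      simp only [Fintype.card_unit, Nat.cast_one]
      have h2 : (1 + ρ) * L < p * (L * ω.dim c') := by
        have h3 : (0 : ℝ) ≤ p := Nat.cast_nonneg p
        nlinarith
      have h4 : (1 + ρ) * L < (p * ω.dim c') * L := by linarith
      exact lt_of_mul_lt_mul_right h4 hL.le
  obtain ⟨v, hv1⟩ := hcu (1 / 2) (by norm_num)
  obtain ⟨r, hr1, hr2⟩ := inv_sqrt (v * C * v.conjTranspose) (cm_conj_nonneg v hC).isSelfAdjoint hv1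
  obtain ⟨y, hy⟩ := hv (r * v)
  refine ⟨n, p, c', y, hc'0, hc'1, ?_, hσ'⟩
  rw [← hy, cm_conj_mul, cm_star_eq, hr1]
  rw [← hr2]
  simp only [cm_assoc]

end Pool.Agent.Helper14.RC2.FULL
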